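import Pool.Agent.Lib.MP_a29c66_gt.Defs
import Pool.Agent.Lib.MP_a29c66_gt.Main

/-!
# A product of two sequential spaces which is a `k_R`-space but not a `k`-space

`X` is the Fréchet fan `S_ω`.  `Y` consists of countably many copies of a Mrówka space `Ψ(𝒜)`,
`𝒜` a maximal almost disjoint family, and one further point whose neighbourhoods contain all but
finitely many of the copies.  Every sequence of isolated points of `Y` has a convergent
subsequence, so if `f` is continuous on the compact subsets of `X × Y`, then `f (x, ·)` converges
uniformly on `Y` as `x` runs to the vertex along a spine; hence `f` is continuous.  On the other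
hand, each copy of `Ψ(𝒜)` contains an infinite closed discrete set, which gives a set `F` that
meets every compact set in a finite set and has the point `(∞, ∞)` in its closure.
-/

namespace Pool.Agent.Results.MP_a29c66_gt.NotK

open Pool.Agent.Lib.MP_a29c66_gt

/-- There are sequential spaces `X` and `Y`, with `X` countable and Fréchet–Urysohn and `Y` first
countable, such that `X × Y` is a `k_R`-space but not a `k`-space. -/
theorem result : ∃ (X Y : Type) (_ : TopologicalSpace X) (_ : TopologicalSpace Y),
    Countable X ∧ FrechetUrysohnSpace X ∧ FirstCountableTopology Y ∧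
    SequentialSpace X ∧ SequentialSpace Y ∧ IsKRSpace (X × Y) ∧ ¬ IsKSpace (X × Y) := by
  obtain ⟨𝒜, h𝒜⟩ := exists_isMAD
  have h1 : FirstCountableTopology (PsiSum 𝒜) := PsiSum.firstCountable h𝒜
  exact ⟨Fan, PsiSum 𝒜, inferInstance, inferInstance, inferInstance, inferInstance, h1,
    inferInstance, inferInstance, isKRSpace h𝒜, not_isKSpace h𝒜⟩

end Pool.Agent.Results.MP_a29c66_gt.NotK
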